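import Mathlib
import Pool.Agent.H957R3.FT

set_option autoImplicit false

/-!
# Induction from a Borel subgroup does not preserve Cohen-Macaulayness

Let `k` be algebraically closed of characteristic `p > 0`, `G = SL₂`, `B` the upper triangular
Borel subgroup. The ring `R = k[x,y]/(xy)` is Cohen-Macaulay. Let `B` act on it through the
character `b ↦ b₁₁` (the inverse of the upper left entry) in degree one. Then
`ind_B^G R` is the coordinate ring `k[u,v,w,z]/(uw,uz,vw,vz)` of two planes meeting in a point; it
has dimension two and depth one at the origin, so it is not Cohen-Macaulay.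

The definitions (`G`, `borel`, `IsMorphism`, `BAlgebra`, `ind`) are in
`Pool/Agent/H957R3/Ind.lean` and those of Cohen-Macaulay rings are in `Pool/Agent/H957R3/CM.lean`.
-/

namespace Pool.Agent.Results.MP_271f8e_al.InductionNotCM

open Pool.Agent.H957R3 Pool.Agent.H957R3.Ind

universe u

/-- For every prime `p` and every algebraically closed field `k` of characteristic `p` there is a
Cohen-Macaulay `B`-algebra `R` (`B` the Borel subgroup of `G = SL₂`), finitely generated over `k`,
such that `ind_B^G R` is a finitely generated `k`-algebra which is not Cohen-Macaulay. -/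
theorem result (p : ℕ) [Fact p.Prime] (k : Type u) [Field k] [IsAlgClosed k] [CharP k p] :
    ∃ (R : Type u) (_ : CommRing R) (_ : Algebra k R) (A : BAlgebra k R),
      CM.IsCohenMacaulayRing R ∧ Algebra.FiniteType k R ∧
      Algebra.FiniteType k (ind A) ∧ ¬ CM.IsCohenMacaulayRing (ind A) := by
  have : Infinite k := IsAlgClosed.instInfinite
  refine ⟨FP k, inferInstance, inferInstance, alg k, FP_cm, ?_, finiteType, not_cm⟩
  let _ : Algebra (Polynomial k) (FP k) := (diag (k := k) : Polynomial k →+* FP k).toAlgebra
  have h1 : Module.Finite (Polynomial k) (FP k) := diag_finite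
  have h2 : IsScalarTower k (Polynomial k) (FP k) :=
    IsScalarTower.of_algebraMap_eq' (diag (k := k)).comp_algebraMap.symm
  exact Algebra.FiniteType.trans (S := Polynomial k) inferInstance inferInstance

end Pool.Agent.Results.MP_271f8e_al.InductionNotCM
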